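import Pool.Agent.H741.RS.PubM
import Pool.Agent.H741.RS.Stm

/-!
# Project RS: automorphisms in the standard form are holomorphic automorphisms of the ball
-/

set_option autoImplicit false

namespace Pool.Agent.H348.RS.HOLA

open Pool.Agent.H741.RS

/-- the linear fractional maps are holomorphic on the ball -/
theorem diff_frac (h1 : S_PRES) {n : ℕ} (A : (ℂ × V n) →ₗ[ℂ] (ℂ × V n)) (hA : PresJ A) :
    DifferentiableOn ℂ (frac A) (Bn n) := by
  have hL : Differentiable ℂ (fun z : V n => A ((1 : ℂ), z)) := by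
    have h := (LinearMap.toContinuousLinearMap A).differentiable
    have h2 : Differentiable ℂ (fun z : V n => ((1 : ℂ), z)) :=
      (differentiable_const (1 : ℂ)).prodMk differentiable_id
    exact h.comp h2
  have hL1 : Differentiable ℂ (fun z : V n => (A ((1 : ℂ), z)).1) := hL.fst
  have hL2 : Differentiable ℂ (fun z : V n => (A ((1 : ℂ), z)).2) := hL.snd
  unfold frac
  exact (hL1.differentiableOn.inv (fun z hz => ((h1 n A hA).2 z hz).1)).smul hL2.differentiableOn

/-- inverse maps -/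
theorem frac_frac (h1 : S_PRES) {n : ℕ} (A A' : (ℂ × V n) →ₗ[ℂ] (ℂ × V n)) (hA : PresJ A)
    (h : A' ∘ₗ A = LinearMap.id) : ∀ z ∈ Bn n, frac A' (frac A z) = z := by
  intro z hz
  obtain ⟨ha, -, he, -⟩ := (h1 n A hA).2 z hz
  have h2 : A' (A ((1 : ℂ), z)) = ((1 : ℂ), z) := by
    have := congrArg (fun L => L ((1 : ℂ), z)) h
    simpa using this
  rw [he, map_smul] at h2
  have h3 : A' ((1 : ℂ), frac A z) = ((A ((1 : ℂ), z)).1)⁻¹ • ((1 : ℂ), z) := by
    exact (inv_smul_eq_iff₀ ha).2 h2.symm ▸ rfl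
  have h4 : frac A' (frac A z) = ((A' ((1 : ℂ), frac A z)).1)⁻¹ • (A' ((1 : ℂ), frac A z)).2 := rfl
  rw [h4, h3]
  simp [smul_smul, ha]

/-- automorphisms in the standard form are automorphisms -/
theorem t_HOLA (h1 : S_PRES) : S_HOLA := by
  rintro n γ ⟨A, hA, hγ⟩
  obtain ⟨⟨A', hA', hl, hr⟩, hAz⟩ := h1 n A hA
  have hA'z := (h1 n A' hA').2
  refine ⟨?_, ?_, frac A', diff_frac h1 A' hA', ?_, ?_⟩
  · exact (diff_frac h1 A hA).congr hγ
  · intro z hz
    rw [hγ z hz]
    exact (hAz z hz).2.1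
  · intro z hz
    exact (hA'z z hz).2.1
  · intro z hz
    refine ⟨?_, ?_⟩
    · rw [hγ z hz]
      exact frac_frac h1 A A' hA hl z hz
    · rw [hγ _ (hA'z z hz).2.1]
      exact frac_frac h1 A' A hA' hr z hz

end Pool.Agent.H348.RS.HOLA
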